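import Pool.Agent.Helper17.ZK.Ring
import Pool.Agent.K3h63.PD.Tens
import Pool.Agent.Helper13GL.AJ
import Pool.Agent.N64.AF.M6

/-!
# Decompositions into even and odd pieces; numerically trivial endomorphisms of tensor powers
-/

set_option autoImplicit false
set_option linter.unusedSectionVars false
set_option linter.unusedSimpArgs false
set_option backward.isDefEq.respectTransparency false
set_option backward.defeqAttrib.useBackward true

open CategoryTheory Limits MonoidalCategory Module
open Pool.Agent.Y112.SR Pool.Agent.Y112.KD Pool.Agent.N64.AF Pool.Agent.R905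
open Pool.Agent.Y116.MT (tr)
open Pool.Agent.TH829.Kim (InRad Killed)

namespace Pool.Agent.Helper17.ZK

universe v u w

section

variable {C : Type u} [Category.{v} C] [Preadditive C] [Linear ℚ C] [MonoidalCategory C]
  [MonoidalPreadditive C] [MonoidalLinear ℚ C] [SymmetricCategory C]

/-- `X` is a finite direct sum of objects with a vanishing symmetric or exterior power. -/
structure Dec (X : C) (ι : Type) [Fintype ι] where
  P : ι → C
  i : ∀ j, P j ⟶ X
  r : ∀ j, X ⟶ P j
  η : ι → ℚ
  N : ι → ℕ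
  ir : ∀ j, i j ≫ r j = 𝟙 _
  sum : ∑ j, r j ≫ i j = 𝟙 X
  sq : ∀ j, η j * η j = 1
  kill : ∀ j, asym (η j) (P j) (N j + 1) = 0

lemma ne_zero_of_sq {η : ℚ} (h : η * η = 1) : η ≠ 0 := by
  rintro rfl
  norm_num at h

/-- The decomposition of a Kimura finite object. -/
lemma dec_of_kimura [IsIdempotentComplete C] {T : C} (h : IsKimuraFinite T) :
    Nonempty (Dec T Bool) := by
  obtain ⟨E, O, i, r, i', r', h1, h3, h5, ⟨n, hn⟩, m, hm⟩ := (isKimuraFinite_iff T).1 h
  exact ⟨{
    P := fun b => if b then E else O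
    i := fun b => match b with
      | true => i
      | false => i'
    r := fun b => match b with
      | true => r
      | false => r'
    η := fun b => if b then -1 else 1
    N := fun b => if b then n else m
    ir := fun b => match b with
      | true => h1
      | false => h3
    sum := by
      rw [Fintype.sum_bool]
      exact h5
    sq := fun b => by cases b <;> norm_num
    kill := fun b => match b with
      | true => asym_mono (by norm_num) E hn
      | false => asym_mono (by norm_num) O hm }⟩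

lemma asym_unit : asym (-1 : ℚ) (𝟙_ C) 2 = 0 := by
  have h1 : (β_ (𝟙_ C) (𝟙_ C)).hom = 𝟙 _ := by
    rw [braiding_tensorUnit_right, ← unitors_equal, Iso.hom_inv_id]
  have h2 : sw (tp (𝟙_ C) 0) (𝟙_ C) = 𝟙 _ := by
    rw [sw, h1]
    simp
  rw [asym_succ, asym_one, h2]
  simp

/-- The decomposition of the unit object. -/
noncomputable def decUnit : Dec (𝟙_ C) Unit where
  P := fun _ => 𝟙_ C
  i := fun _ => 𝟙 _
  r := fun _ => 𝟙 _
  η := fun _ => -1
  N := fun _ => 1
  ir := fun _ => Category.comp_id _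
  sum := by simp
  sq := fun _ => by norm_num
  kill := fun _ => asym_unit

/-- The decomposition of a tensor product. -/
lemma dec_tensor {X Y : C} {ι κ : Type} [Fintype ι] [Fintype κ] (dX : Dec X ι) (dY : Dec Y κ) :
    Nonempty (Dec (X ⊗ Y) (ι × κ)) := by
  have h1 : ∀ p : ι × κ, ∃ N : ℕ,
      asym (-(dX.η p.1 * dY.η p.2)) (dX.P p.1 ⊗ dY.P p.2) N = 0 := fun p =>
    Pool.Agent.K3h63.PD.tensor_kill (dX.sq p.1) (dY.sq p.2) (dX.kill p.1) (dY.kill p.2)
  choose N hN using h1
  have hsq : ∀ p : ι × κ, -(dX.η p.1 * dY.η p.2) * -(dX.η p.1 * dY.η p.2) = 1 := by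
    intro p
    have e1 := dX.sq p.1
    have e2 := dY.sq p.2
    calc -(dX.η p.1 * dY.η p.2) * -(dX.η p.1 * dY.η p.2)
        = (dX.η p.1 * dX.η p.1) * (dY.η p.2 * dY.η p.2) := by ring
      _ = 1 := by rw [e1, e2, one_mul]
  exact ⟨{
    P := fun p => dX.P p.1 ⊗ dY.P p.2
    i := fun p => dX.i p.1 ⊗ₘ dY.i p.2
    r := fun p => dX.r p.1 ⊗ₘ dY.r p.2
    η := fun p => -(dX.η p.1 * dY.η p.2)
    N := N
    ir := fun p => by
      rw [tensorHom_comp_tensorHom, dX.ir, dY.ir, id_tensorHom_id]
    sum := by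
      rw [← id_tensorHom_id, ← dX.sum, ← dY.sum, Fintype.sum_prod_type, sum_tensor]
      refine Finset.sum_congr rfl fun a _ => ?_
      rw [tensor_sum]
      refine Finset.sum_congr rfl fun b _ => ?_
      rw [tensorHom_comp_tensorHom]
    sq := hsq
    kill := fun p => asym_mono (hsq p) _ (hN p) }⟩

/-- The decomposition of the tensor powers. -/
lemma dec_tp {T : C} {ι : Type} [Fintype ι] (d : Dec T ι) (n : ℕ) :
    ∃ (κ : Type) (_ : Fintype κ), Nonempty (Dec (tp T n) κ) := by
  induction n with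
  | zero => exact ⟨Unit, inferInstance, ⟨decUnit⟩⟩
  | succ n ih =>
    obtain ⟨κ, _, ⟨d'⟩⟩ := ih
    exact ⟨κ × ι, inferInstance, dec_tensor d' d⟩

end

section

variable {C : Type u} [Category.{v} C] [Preadditive C] [Linear ℚ C] [MonoidalCategory C]
  [MonoidalPreadditive C] [MonoidalLinear ℚ C] [SymmetricCategory C]
  [RightRigidCategory C] {K : Type w} [Field K] [Algebra ℚ K] {R : SuperRealisation C K}

lemma unitQ_of_real (hR : IsReal ℚ R) : UnitQ C :=
  ⟨hR.unit, Pool.Agent.N64.AF.N690V2.one_ne hR⟩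

/-- Numerically trivial endomorphisms of a sum of even and odd objects are nilpotent. -/
lemma Dec.nilpotent (hR : IsReal ℚ R) {X : C} {ι : Type} [Fintype ι] (d : Dec X ι) (f : End X)
    (hf : NumTriv (f : X ⟶ X)) : IsNilpotent f := by
  have hU := unitQ_of_real hR
  refine isNilpotent_of_sum (tr := trq hU X) ?_ (fun j => en (d.r j ≫ d.i j)) ?_ ?_ d.η
    (fun j => ne_zero_of_sq (d.sq j)) d.N ?_ ?_
  · intro a b
    rw [End.mul_def, End.mul_def]
    exact trq_comm' R hU _ _
  · intro j
    rw [End.mul_def]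
    change (d.r j ≫ d.i j) ≫ d.r j ≫ d.i j = d.r j ≫ d.i j
    rw [Category.assoc, reassoc_of% d.ir j]
  · exact d.sum
  · intro j
    exact killed hU (d.sq j) (d.i j) (d.r j) (d.N j) (d.kill j) _ rfl
  · intro γ
    rw [End.mul_def, trq_comm' R hU]
    have h1 := hf (γ : X ⟶ X)
    have h2 := trq_spec hU ((f : X ⟶ X) ≫ (γ : X ⟶ X) : End X)
    have h3 : (trq hU X ((f : X ⟶ X) ≫ (γ : X ⟶ X) : End X)) • 𝟙 (𝟙_ C) = (0 : ℚ) • 𝟙 (𝟙_ C) := by
      rw [← h2, zero_smul]
      exact h1
    exact hU.inj h3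

end

end Pool.Agent.Helper17.ZK
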