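import Pool.Agent.N64.AF.Defs

/-!
# Nil classes: definitions
-/

set_option autoImplicit false
set_option linter.unusedSectionVars false

open CategoryTheory Limits MonoidalCategory
open Pool.Agent.Y112.KD

namespace Pool.Agent.Helper17.ZK

universe v u

section

variable {C : Type u} [Category.{v} C] [Preadditive C] [MonoidalCategory C]
  [MonoidalPreadditive C]

/-- The endomorphism `Y ≅ 𝟙 ⊗ Y ⟶ Z ⊗ Y ⟶ Y` obtained from a class `α` on `Z` and a morphism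
`h : Z ⊗ Y ⟶ Y`. -/
def act {Z Y : C} (α : 𝟙_ C ⟶ Z) (h : Z ⊗ Y ⟶ Y) : End Y := (λ_ Y).inv ≫ (α ▷ Y) ≫ h

/-- The class `α` is nil on `T`: all the endomorphisms of the tensor powers of `T` which are obtained
from `α` and a morphism `Z ⊗ T ⊗ ⋯ ⊗ T ⟶ T ⊗ ⋯ ⊗ T` are nilpotent. -/
def NilOn (T : C) {Z : C} (α : 𝟙_ C ⟶ Z) : Prop :=
  ∀ (m : ℕ) (h : Z ⊗ tp T m ⟶ tp T m), IsNilpotent (act α h)

lemma act_add {Z Y : C} (α β : 𝟙_ C ⟶ Z) (h : Z ⊗ Y ⟶ Y) :
    act (α + β) h = act α h + act β h := by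
  simp only [act, MonoidalPreadditive.add_whiskerRight, Preadditive.add_comp, Preadditive.comp_add]

lemma act_add' {Z Y : C} (α : 𝟙_ C ⟶ Z) (h h' : Z ⊗ Y ⟶ Y) :
    act α (h + h') = act α h + act α h' := by
  simp only [act, Preadditive.comp_add]

lemma act_zero {Z Y : C} (h : Z ⊗ Y ⟶ Y) : act (0 : 𝟙_ C ⟶ Z) h = 0 := by
  simp only [act, MonoidalPreadditive.zero_whiskerRight, zero_comp, comp_zero]

lemma act_zero' {Z Y : C} (α : 𝟙_ C ⟶ Z) : act α (0 : Z ⊗ Y ⟶ Y) = 0 := by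
  simp only [act, comp_zero]

lemma act_mul {Z Y : C} (α : 𝟙_ C ⟶ Z) (h : Z ⊗ Y ⟶ Y) (f : End Y) :
    f * act α h = act α (h ≫ (f : Y ⟶ Y)) := by
  rw [End.mul_def]
  simp only [act, Category.assoc]

lemma mul_act {Z Y : C} (α : 𝟙_ C ⟶ Z) (h : Z ⊗ Y ⟶ Y) (f : End Y) :
    act α h * f = act α ((Z ◁ (f : Y ⟶ Y)) ≫ h) := by
  rw [End.mul_def]
  simp only [act]
  rw [← Category.assoc, leftUnitor_inv_naturality]
  simp only [Category.assoc]
  rw [← whisker_exchange_assoc]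

lemma act_comp {Y Z Z' : C} (α : 𝟙_ C ⟶ Z) (f : Z ⟶ Z') (h : Z' ⊗ Y ⟶ Y) :
    act (α ≫ f) h = act α ((f ▷ Y) ≫ h) := by
  simp only [act, comp_whiskerRight, Category.assoc]

lemma pow_add_act {Z Y : C} (a : End Y) (β : 𝟙_ C ⟶ Z) (h : Z ⊗ Y ⟶ Y) (k : ℕ) :
    ∃ h' : Z ⊗ Y ⟶ Y, (a + act β h) ^ k = a ^ k + act β h' := by
  induction k with
  | zero => exact ⟨0, by rw [act_zero', pow_zero, pow_zero, add_zero]⟩
  | succ k ih =>
    obtain ⟨h', hh⟩ := ih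
    refine ⟨((Z ◁ (a : Y ⟶ Y)) ≫ h') + h ≫ (((a + act β h) ^ k : End Y) : Y ⟶ Y), ?_⟩
    rw [act_add', ← mul_act, ← act_mul, pow_succ, pow_succ]
    have e1 : (a + act β h) ^ k * (a + act β h) =
        (a + act β h) ^ k * a + (a + act β h) ^ k * act β h := mul_add _ _ _
    rw [e1]
    nth_rewrite 1 [hh]
    rw [add_mul, add_assoc]

variable [Linear ℚ C] [MonoidalLinear ℚ C]

lemma act_smul {Z Y : C} (c : ℚ) (α : 𝟙_ C ⟶ Z) (h : Z ⊗ Y ⟶ Y) :
    act (c • α) h = c • act α h := by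
  simp only [act, MonoidalLinear.smul_whiskerRight, Linear.smul_comp, Linear.comp_smul]

/-- The space of the classes on `Z` which are nil on `T`. -/
def nilSub (T Z : C) : Submodule ℚ (𝟙_ C ⟶ Z) where
  carrier := {α | NilOn T α}
  zero_mem' := fun m h => by
    rw [act_zero]
    exact IsNilpotent.zero
  add_mem' := fun {α β} hα hβ m h => by
    rw [act_add]
    obtain ⟨k, hk⟩ := hα m h
    obtain ⟨h', hh⟩ := pow_add_act (act α h) β h k
    rw [hk, zero_add] at hh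
    obtain ⟨l, hl⟩ := hβ m h'
    refine ⟨k * l, ?_⟩
    rw [pow_mul, hh, hl]
  smul_mem' := fun c α hα m h => by
    rw [act_smul]
    exact (hα m h).smul c

lemma mem_nilSub {T Z : C} {α : 𝟙_ C ⟶ Z} : α ∈ nilSub T Z ↔ NilOn T α := Iff.rfl

end

end Pool.Agent.Helper17.ZK
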