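import Pool.Agent.Helper17.ZK.Main

/-!
# One inequality for Kimura finiteness
-/

set_option autoImplicit false
set_option linter.unusedSectionVars false

open CategoryTheory Limits MonoidalCategory Module Filter Topology
open Pool.Agent.Y112.SR Pool.Agent.Y112.KD Pool.Agent.N64.AF Pool.Agent.N413.AFW
  Pool.Agent.R905 Pool.Agent.Helper13GL
open scoped ENNReal

namespace Pool.Agent.Helper17.ZK

universe v u w

section

variable {C : Type u} [Category.{v} C] [Preadditive C] [MonoidalCategory C]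
  [MonoidalPreadditive C] [SymmetricCategory C] [RightRigidCategory C]
  [Linear ℚ C] [MonoidalLinear ℚ C]

/-- The numerically trivial classes on `Z` modulo those which are nil on `T`. -/
abbrev NumModNil (T Z : C) : Type _ :=
  numIdeal ℚ (𝟙_ C) Z ⧸ (nilSub T Z).comap (numIdeal ℚ (𝟙_ C) Z).subtype

end

section

variable {C : Type u} [Category.{v} C] [Preadditive C] [MonoidalCategory C]
  [MonoidalPreadditive C] [SymmetricCategory C] [RightRigidCategory C]
  [Linear ℚ C] [MonoidalLinear ℚ C] {K : Type w} [Field K] [Algebra ℚ K]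
  {R : SuperRealisation C K}

/-- The nil classes among the numerically trivial classes. -/
def nilS (hR : IsReal ℚ R) (T Z : C) :
    Submodule ℚ ((sub (homF ℚ (𝟙_ C)) (numS ℚ) (num_stab hR)).obj Z) :=
  (nilSub T Z).comap (numIdeal ℚ (𝟙_ C) Z).subtype

lemma nil_stab (hR : IsReal ℚ R) (T : C) :
    IsStab (sub (homF ℚ (𝟙_ C)) (numS ℚ) (num_stab hR)) (nilS hR T) := by
  intro Y Z f a ha m h
  have h1 : NilOn T (show 𝟙_ C ⟶ Y from Subtype.val a) := ha
  change IsNilpotent (act ((show 𝟙_ C ⟶ Y from Subtype.val a) ≫ f) h)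
  rw [act_comp]
  exact h1 m _

/-- The functor of the numerically trivial classes modulo the nil classes. -/
def numModNilF (hR : IsReal ℚ R) (T : C) : C ⥤ ModuleCat.{v} ℚ :=
  quoS (sub (homF ℚ (𝟙_ C)) (numS ℚ) (num_stab hR)) (nilS hR T) (nil_stab hR T)

instance (hR : IsReal ℚ R) (T : C) : (numModNilF hR T).Additive := by
  unfold numModNilF
  infer_instance

instance (hR : IsReal ℚ R) (T : C) : (numModNilF hR T).Linear ℚ := by
  unfold numModNilF
  infer_instance

end

section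

variable {C : Type u} [Category.{v} C] [Preadditive C] [MonoidalCategory C]
  [MonoidalPreadditive C] [SymmetricCategory C] [RightRigidCategory C]
  [Linear ℚ C] [MonoidalLinear ℚ C] [IsIdempotentComplete C]
  {K : Type w} [Field K] [Algebra ℚ K] {R : SuperRealisation C K}

lemma finrank_le_of_retract {T P : C} (i : P ⟶ T) (r : T ⟶ P) (h : i ≫ r = 𝟙 P) :
    finrank K (R.H.obj P) ≤ finrank K (R.H.obj T) := by
  have h0 := R.finite T
  have h1 : R.H.map i ≫ R.H.map r = 𝟙 _ := by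
    rw [← Functor.map_comp, h, CategoryTheory.Functor.map_id]
  refine LinearMap.finrank_le_finrank_of_injective (f := (R.H.map i).hom) ?_
  apply Function.LeftInverse.injective (g := (R.H.map r).hom)
  intro x
  exact LinearMap.congr_fun (congrArg ModuleCat.Hom.hom h1) x

/-- Kimura finiteness from the nilpotence for the powers of order at most `b + 1`. -/
theorem kimura_of_bounded (hR : IsReal ℚ R) {T : C} (hT : R.CPlus T) (hb : 0 < bt R T)
    (hn : ∀ n, n ≤ bt R T + 1 → HomNil R (tp T n)) : IsKimuraFinite T := by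
  have hc := R_charZero R
  have hU := unitQ_of_real hR
  have hT1 : HomNil R T := (hn 1 (by omega)).retract (λ_ T).inv (λ_ T).hom (by simp)
  obtain ⟨E, O, i, r, i', r', h1, h2, h3, hE, hO⟩ := exists_parts R hT hT1
  have key : ∀ (P : C) (i : P ⟶ T) (r : T ⟶ P), i ≫ r = 𝟙 P → ∀ d : ℚ, d * d = 1 →
      R.par P = (d : K) • 𝟙 _ → ∃ n, asym (-d) P n = 0 := by
    intro P i r hir d hd hP
    refine ⟨finrank K (R.H.obj P) + 1, ?_⟩
    have hle : finrank K (R.H.obj P) ≤ bt R T := finrank_le_of_retract i r hir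
    have hnil : HomNil R (tp P (finrank K (R.H.obj P) + 1)) := by
      refine (hn _ (by omega)).retract (tpm i _) (tpm r _) ?_
      rw [tpm_comp, hir, tpm_id]
    have hη : (-d) * (-d) = 1 := by linear_combination hd
    obtain ⟨k, hk⟩ := hnil (en (asym (-d) P (finrank K (R.H.obj P) + 1)))
      (Pool.Agent.N861.AF.map_asym_zero R hU d hd hP)
    have h1 : IsIdempotentElem (en (asym (-d) P (finrank K (R.H.obj P) + 1))) :=
      asym_idem hη P _
    have h2 := h1.pow_succ_eq k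
    rw [pow_succ, hk, zero_mul] at h2
    exact h2.symm
  obtain ⟨n, hn1⟩ := key E i r h1 1 (by norm_num) (by rw [hE]; norm_num)
  obtain ⟨m, hm⟩ := key O i' r' h2 (-1) (by norm_num) (by rw [hO]; norm_num)
  rw [neg_neg] at hm
  exact (isKimuraFinite_iff T).2 ⟨E, O, i, r, i', r', h1, h2, h3, ⟨n, hn1⟩, m, hm⟩

/-- **One inequality implies Kimura finiteness.** -/
theorem one_inequality [IsAlgClosed K] (hR : IsReal ℚ R) {T : C} (hT : R.CPlus T)
    (hb : 0 < bt R T) {n : ℕ} (hn : 128 * (bt R T + 2) ^ 2 * bt R T ^ (4 * bt R T + 16) ≤ n)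
    (hlt : (2 * (n + 1) ^ (bt R T ^ 2) : ℕ) * dimE ℚ (NumModNil T (tp (T ⊗ Tᘁ) n)) <
      ((bt R T ^ (2 * n) : ℕ) : ℕ∞)) : IsKimuraFinite T := by
  refine kimura_of_bounded hR hT hb fun m hm y hy => ?_
  have hsub : Subsingleton ((numModNilF hR T).obj (tp (T ⊗ Tᘁ) m)) := by
    by_contra hcon
    have h1 : 128 * (m + 1) ^ 2 * bt R T ^ (4 * m + 12) ≤ n := by
      refine le_trans ?_ hn
      have e1 : (m + 1) ^ 2 ≤ (bt R T + 2) ^ 2 := Nat.pow_le_pow_left (by omega) 2
      have e2 : bt R T ^ (4 * m + 12) ≤ bt R T ^ (4 * bt R T + 16) :=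
        Nat.pow_le_pow_right hb (by omega)
      gcongr
    exact absurd (growth_gap hR hT hb (numModNilF hR T) h1 hcon) (not_le.2 hlt)
  let _ := pairTp T Tᘁ m
  obtain ⟨g, hg⟩ := act_nmz (isoTp T Tᘁ m) (y : tp T m ⟶ tp T m)
  have h2 : NumTriv (nmz (V := dp Tᘁ m) (y : tp T m ⟶ tp T m) ≫ (isoTp T Tᘁ m).inv) := by
    refine numTriv_of_map hR ?_
    rw [Functor.map_comp, map_nmz hy, zero_comp]
  have h3 : (Submodule.Quotient.mk (⟨_, h2⟩ : numIdeal ℚ (𝟙_ C) (tp (T ⊗ Tᘁ) m)) :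
      NumModNil T (tp (T ⊗ Tᘁ) m)) = 0 := @Subsingleton.elim _ hsub _ _
  have h4 : NilOn T (nmz (V := dp Tᘁ m) (y : tp T m ⟶ tp T m) ≫ (isoTp T Tᘁ m).inv) :=
    (Submodule.Quotient.mk_eq_zero _).1 h3
  have h5 := h4 m g
  rwa [hg] at h5

/-- The criterion as an equivalence. -/
theorem one_inequality_iff [IsAlgClosed K] (hR : IsReal ℚ R) {T : C} (hT : R.CPlus T)
    (hb : 0 < bt R T) {n : ℕ} (hn : 128 * (bt R T + 2) ^ 2 * bt R T ^ (4 * bt R T + 16) ≤ n) :
    IsKimuraFinite T ↔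
      (2 * (n + 1) ^ (bt R T ^ 2) : ℕ) * dimE ℚ (NumModNil T (tp (T ⊗ Tᘁ) n)) <
        ((bt R T ^ (2 * n) : ℕ) : ℕ∞) := by
  refine ⟨fun h => ?_, one_inequality hR hT hb hn⟩
  have h1 := (kimura_iff_nil hR hT).1 h
  have h2 : Subsingleton (NumModNil T (tp (T ⊗ Tᘁ) n)) := by
    rw [Submodule.Quotient.subsingleton_iff, eq_top_iff]
    rintro ⟨α, hα⟩ _
    exact h1 n α hα
  have h3 : dimE ℚ (NumModNil T (tp (T ⊗ Tᘁ) n)) = 0 := by
    rw [dimE_eq, finrank_zero_of_subsingleton]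
    rfl
  rw [h3, mul_zero]
  exact_mod_cast Nat.pow_pos hb

end

end Pool.Agent.Helper17.ZK
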