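import Pool.Agent.Helper17.ZK.Defs
import Pool.Agent.Helper17.ZK.Dec

/-!
# The zero-one law for Kimura finiteness
-/

set_option autoImplicit false
set_option linter.unusedSectionVars false

open CategoryTheory Limits MonoidalCategory Module Filter Topology
open Pool.Agent.Y112.SR Pool.Agent.Y112.KD Pool.Agent.N64.AF Pool.Agent.N413.AFW
  Pool.Agent.R905 Pool.Agent.Helper13GL
open scoped ENNReal

namespace Pool.Agent.Helper17.ZK

universe v u w

section

variable {C : Type u} [Category.{v} C] [Preadditive C] [MonoidalCategory C]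
  [MonoidalPreadditive C]

/-- The powers of the endomorphism obtained from a class are obtained from its exterior powers. -/
lemma act_pow {Z Y : C} (α : 𝟙_ C ⟶ Z) (h : Z ⊗ Y ⟶ Y) (k : ℕ) :
    ∃ H : tp Z k ⊗ Y ⟶ Y, (act α h) ^ k = act (tpow α k) H := by
  induction k with
  | zero =>
    refine ⟨(λ_ Y).hom, ?_⟩
    change (1 : End Y) = (λ_ Y).inv ≫ (𝟙 (𝟙_ C) ▷ Y) ≫ (λ_ Y).hom
    rw [id_whiskerRight, Category.id_comp, Iso.inv_hom_id]
    rfl
  | succ k ih =>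
    obtain ⟨H, hH⟩ := ih
    refine ⟨(α_ (tp Z k) Z Y).hom ≫ (tp Z k ◁ h) ≫ H, ?_⟩
    rw [pow_succ, hH, mul_act]
    simp only [act, V1aux322.tpow_succ]
    simp

end

section

variable {C : Type u} [Category.{v} C] [Preadditive C] [MonoidalCategory C]
  [MonoidalPreadditive C] [SymmetricCategory C] [RightRigidCategory C]
  [Linear ℚ C] [MonoidalLinear ℚ C] {K : Type w} [Field K] [Algebra ℚ K]
  {R : SuperRealisation C K}

lemma act_numTriv (hR : IsReal ℚ R) {Z Y : C} {α : 𝟙_ C ⟶ Z} (hα : NumTriv α)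
    (h : Z ⊗ Y ⟶ Y) : NumTriv ((act α h : End Y) : Y ⟶ Y) :=
  (hα.whiskerRight hR Y).comp hR _ _

omit [Linear ℚ C] [MonoidalLinear ℚ C] [RightRigidCategory C] in
/-- An endomorphism is obtained from its class. -/
lemma act_nmz {U V W : C} [ExactPairing U V] (e : W ≅ U ⊗ V) (z : U ⟶ U) :
    ∃ h : W ⊗ U ⟶ U, (act (nmz (V := V) z ≫ e.inv) h : End U) = z := by
  refine ⟨(e.hom ▷ U) ≫ (α_ U V U).hom ≫ (U ◁ ε_ U V) ≫ (ρ_ U).hom, ?_⟩
  rw [act_comp, ← comp_whiskerRight_assoc, Iso.inv_hom_id, id_whiskerRight, Category.id_comp]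
  have h1 := (tensorRightHomEquiv (𝟙_ C) U V U).symm_apply_apply ((λ_ U).hom ≫ z)
  have h2 : (nmz (V := V) z ▷ U) ≫ (α_ U V U).hom ≫ (U ◁ ε_ U V) ≫ (ρ_ U).hom =
      (λ_ U).hom ≫ z := h1
  simp only [act]
  rw [h2, Iso.inv_hom_id_assoc]

end

section

variable {C : Type u} [Category.{v} C] [Preadditive C] [MonoidalCategory C]
  [MonoidalPreadditive C] [SymmetricCategory C] [RightRigidCategory C]
  [Linear ℚ C] [MonoidalLinear ℚ C] [IsIdempotentComplete C]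
  {K : Type w} [Field K] [IsAlgClosed K] [Algebra ℚ K] {R : SuperRealisation C K}

/-- Kimura finiteness in terms of nil classes. -/
lemma kimura_iff_nil (hR : IsReal ℚ R) {T : C} (hT : R.CPlus T) :
    IsKimuraFinite T ↔
      ∀ (n : ℕ) (α : 𝟙_ C ⟶ tp (T ⊗ Tᘁ) n), NumTriv α → NilOn T α := by
  constructor
  · intro h n α hα m g
    obtain ⟨d⟩ := dec_of_kimura h
    obtain ⟨κ, _, ⟨d'⟩⟩ := dec_tp d m
    exact d'.nilpotent hR _ (act_numTriv hR hα g)
  · intro h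
    refine kimura_of_nil hR hT fun n y hy => ?_
    let _ := pairTp T Tᘁ n
    obtain ⟨g, hg⟩ := act_nmz (isoTp T Tᘁ n) (y : tp T n ⟶ tp T n)
    rw [← hg]
    refine h n _ (numTriv_of_map hR ?_) n g
    rw [Functor.map_comp, map_nmz hy, zero_comp]

/-- **The zero-one law for Kimura finiteness.** -/
theorem zero_one (hR : IsReal ℚ R) {T : C} (hT : R.CPlus T) (hb : 0 < bt R T) :
    ∃ N : ℕ∞, (N = 1 ∨ N = ⊤) ∧
      RatioTo ℚ (T ⊗ Tᘁ) (fun n => dimE ℚ ((𝟙_ C ⟶ tp (T ⊗ Tᘁ) n) ⧸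
        nilSub T (tp (T ⊗ Tᘁ) n))) N ∧ (N = 1 ↔ IsKimuraFinite T) := by
  obtain ⟨inst, hS⟩ := isPow_tensor_dual hR hT hb
  obtain ⟨N, -, h1, h2, h3⟩ := quot_law hS (fun Z => nilSub T Z)
    (fun f α hα m h => by
      rw [act_comp]
      exact hα m _)
    (by
      intro h0
      obtain ⟨k, hk⟩ := h0 0 (λ_ (𝟙_ C)).hom
      have e1 : (act (𝟙 (𝟙_ C)) (λ_ (𝟙_ C)).hom : End (tp T 0)) = 1 := by
        change (λ_ (𝟙_ C)).inv ≫ (𝟙 (𝟙_ C) ▷ (𝟙_ C)) ≫ (λ_ (𝟙_ C)).hom = 𝟙 (𝟙_ C)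
        rw [id_whiskerRight, Category.id_comp, Iso.inv_hom_id]
      rw [e1, one_pow] at hk
      exact N690V2.one_ne (R := R) hR hk)
  refine ⟨N, ?_, h1, ?_⟩
  · by_cases hN : N = ⊤
    · exact Or.inr hN
    · left
      rw [h2]
      obtain ⟨k, rfl⟩ := ENat.ne_top_iff_exists.1 hN
      intro n α hα m h
      obtain ⟨H, hH⟩ := act_pow α h k
      have h4 : NilOn T (tpow α k) := h3 k rfl n α hα
      have h5 := h4 m H
      rw [← hH] at h5
      exact h5.of_pow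
  · rw [h2, kimura_iff_nil hR hT]
    rfl

end

end Pool.Agent.Helper17.ZK
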