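import Pool.Agent.TH829.Kim.Alg2

/-!
# Algebras with a trace: the radical is nil if the unit element is a sum of even and odd idempotents
-/

set_option autoImplicit false

namespace Pool.Agent.Helper17.ZK

open Pool.Agent.TH829.Kim

variable {R : Type*} [Ring R] [Algebra ℚ R] {tr : R →ₗ[ℚ] ℚ}

/-- Two-sided nil ideals. -/
structure NI (I : Submodule ℚ R) : Prop where
  left : ∀ a, ∀ s ∈ I, a * s ∈ I
  right : ∀ a, ∀ s ∈ I, s * a ∈ I
  nil : ∀ s ∈ I, IsNilpotent s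

lemma pow_sub_mem {I : Submodule ℚ R} (hl : ∀ a, ∀ s ∈ I, a * s ∈ I)
    (hr : ∀ a, ∀ s ∈ I, s * a ∈ I) (a : R) {b : R} (hb : b ∈ I) (k : ℕ) :
    (a + b) ^ k - a ^ k ∈ I := by
  induction k with
  | zero => simp
  | succ k ih =>
    have e : (a + b) ^ (k + 1) - a ^ (k + 1) = ((a + b) ^ k - a ^ k) * a + (a + b) ^ k * b := by
      rw [pow_succ, pow_succ]
      noncomm_ring
    rw [e]
    exact I.add_mem (hr _ _ ih) (hl _ _ hb)

lemma NI.sup {I J : Submodule ℚ R} (hI : NI I) (hJ : NI J) : NI (I ⊔ J) where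
  left a s hs := by
    obtain ⟨x, hx, y, hy, rfl⟩ := Submodule.mem_sup.1 hs
    rw [mul_add]
    exact add_mem (Submodule.mem_sup_left (hI.left _ _ hx)) (Submodule.mem_sup_right (hJ.left _ _ hy))
  right a s hs := by
    obtain ⟨x, hx, y, hy, rfl⟩ := Submodule.mem_sup.1 hs
    rw [add_mul]
    exact add_mem (Submodule.mem_sup_left (hI.right _ _ hx))
      (Submodule.mem_sup_right (hJ.right _ _ hy))
  nil s hs := by
    obtain ⟨x, hx, y, hy, rfl⟩ := Submodule.mem_sup.1 hs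
    obtain ⟨k, hk⟩ := hI.nil x hx
    have h1 := pow_sub_mem hJ.left hJ.right x hy k
    rw [hk, sub_zero] at h1
    exact (hJ.nil _ h1).of_pow

lemma NI.bot : NI (⊥ : Submodule ℚ R) where
  left a s hs := by
    rw [Submodule.mem_bot] at hs ⊢
    rw [hs, mul_zero]
  right a s hs := by
    rw [Submodule.mem_bot] at hs ⊢
    rw [hs, zero_mul]
  nil s hs := by
    rw [Submodule.mem_bot] at hs
    rw [hs]
    exact IsNilpotent.zero

lemma NI.finset_sup {ι : Type*} (s : Finset ι) (I : ι → Submodule ℚ R) (h : ∀ j ∈ s, NI (I j)) :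
    NI (s.sup I) := by
  classical
  induction s using Finset.induction_on with
  | empty => exact NI.bot
  | insert a s _ ih =>
    rw [Finset.sup_insert]
    exact (h a (Finset.mem_insert_self a s)).sup (ih fun j hj => h j (Finset.mem_insert_of_mem hj))

/-- The part of the radical in a piece. -/
def piece (tr : R →ₗ[ℚ] ℚ) (e : R) : Submodule ℚ R where
  carrier := {a | InRad tr a ∧ e * a = a}
  zero_mem' := ⟨fun γ => by rw [zero_mul, map_zero], mul_zero _⟩
  add_mem' := by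
    rintro a b ⟨h1, h2⟩ ⟨h3, h4⟩
    exact ⟨h1.add h3, by rw [mul_add, h2, h4]⟩
  smul_mem' := by
    rintro q a ⟨h1, h2⟩
    refine ⟨fun γ => ?_, by rw [mul_smul_comm, h2]⟩
    rw [smul_mul_assoc, map_smul, h1, smul_zero]

lemma mem_piece {e a : R} : a ∈ piece tr e ↔ InRad tr a ∧ e * a = a := Iff.rfl

lemma piece_pow {e : R} {η : ℚ} (hη : η ≠ 0) {n : ℕ} (hK : Killed tr η e n) :
    piece tr e ^ (2 ^ (n + 1) - 1) = ⊥ := by
  have hB : ∀ x ∈ piece tr e, ∀ y ∈ piece tr e, x * y ∈ piece tr e := by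
    rintro a ⟨h1, h2⟩ b ⟨h3, h4⟩
    exact ⟨h1.mul_right b, by rw [← mul_assoc, h2]⟩
  rw [eq_bot_iff]
  apply nagata_higman n hB bot_le
  · intro x _ y hy
    rw [Submodule.mem_bot] at hy ⊢
    rw [hy, mul_zero]
  · intro x hx y _
    rw [Submodule.mem_bot] at hx ⊢
    rw [hx, zero_mul]
  · rintro a ⟨h1, h2⟩
    rw [Submodule.mem_bot]
    exact h1.pow_eq_zero h2 hη hK

lemma ni_piece {e : R} {η : ℚ} (hη : η ≠ 0) {n : ℕ}
    (hK : Killed tr η e n) : NI ((⊤ : Submodule ℚ R) * piece tr e) := by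
  set B := piece tr e with hBd
  have hBT : B * (⊤ : Submodule ℚ R) ≤ B := by
    rw [Submodule.mul_le]
    rintro a ⟨h1, h2⟩ c _
    exact ⟨h1.mul_right c, by rw [← mul_assoc, h2]⟩
  have hpow : ∀ k, ((⊤ : Submodule ℚ R) * B) ^ (k + 1) ≤ ⊤ * B ^ (k + 1) := by
    intro k
    induction k with
    | zero => simp
    | succ k ih =>
      calc ((⊤ : Submodule ℚ R) * B) ^ (k + 1 + 1) = (⊤ * B) * (⊤ * B) ^ (k + 1) := pow_succ' _ _
        _ ≤ (⊤ * B) * (⊤ * B ^ (k + 1)) := by gcongr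
        _ = ⊤ * (B * ⊤) * B ^ (k + 1) := by simp only [mul_assoc]
        _ ≤ ⊤ * B * B ^ (k + 1) := by gcongr
        _ = ⊤ * B ^ (k + 1 + 1) := by rw [pow_succ' B (k + 1), mul_assoc]
  have hM : ((⊤ : Submodule ℚ R) * B) ^ (2 ^ (n + 1) - 1) = ⊥ := by
    have h1 : 1 ≤ 2 ^ (n + 1) - 1 := by
      have : 2 ≤ 2 ^ (n + 1) := by
        calc 2 = 2 ^ 1 := rfl
          _ ≤ 2 ^ (n + 1) := Nat.pow_le_pow_right (by norm_num) (by omega)
      omega
    obtain ⟨k, hk⟩ := Nat.exists_eq_add_of_le' h1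
    rw [eq_bot_iff, hk]
    refine (hpow k).trans ?_
    rw [← hk, hBd, piece_pow hη hK, Submodule.mul_bot]
  refine ⟨fun a s hs => ?_, fun a s hs => ?_, fun s hs => ?_⟩
  · have h1 : (⊤ : Submodule ℚ R) * (⊤ * B) ≤ ⊤ * B := by
      rw [← mul_assoc]
      exact mul_le_mul' le_top le_rfl
    exact h1 (Submodule.mul_mem_mul Submodule.mem_top hs)
  · have h1 : (⊤ * B) * (⊤ : Submodule ℚ R) ≤ ⊤ * B := by
      rw [mul_assoc]
      exact mul_le_mul' le_rfl hBT
    exact h1 (Submodule.mul_mem_mul hs Submodule.mem_top)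
  · refine ⟨2 ^ (n + 1) - 1, ?_⟩
    have h2 := Submodule.pow_mem_pow _ hs (2 ^ (n + 1) - 1)
    rwa [hM, Submodule.mem_bot] at h2

/-- The radical of the trace form is nil. -/
theorem isNilpotent_of_sum (hsym : ∀ a b, tr (a * b) = tr (b * a)) {ι : Type*} [Fintype ι]
    (e : ι → R) (he : ∀ j, e j * e j = e j) (hsum : ∑ j, e j = 1) (η : ι → ℚ)
    (hη : ∀ j, η j ≠ 0) (n : ι → ℕ) (hK : ∀ j, Killed tr (η j) (e j) (n j)) {x : R}
    (hx : InRad tr x) : IsNilpotent x := by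
  have h1 := NI.finset_sup (Finset.univ : Finset ι) (fun j => (⊤ : Submodule ℚ R) * piece tr (e j))
    (fun j _ => ni_piece (hη j) (hK j))
  apply h1.nil
  have h2 : x = ∑ j, e j * x := by
    rw [← Finset.sum_mul, hsum, one_mul]
  rw [h2]
  refine sum_mem fun j _ => ?_
  have h3 : (⊤ : Submodule ℚ R) * piece tr (e j) ≤
      Finset.univ.sup fun j => (⊤ : Submodule ℚ R) * piece tr (e j) :=
    Finset.le_sup (f := fun j => (⊤ : Submodule ℚ R) * piece tr (e j)) (Finset.mem_univ j)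
  apply h3
  have h4 : e j * x ∈ piece tr (e j) := ⟨hx.mul_left hsym _, by rw [← mul_assoc, he]⟩
  have h5 := Submodule.mul_mem_mul (Submodule.mem_top (R := ℚ) (x := (1 : R))) h4
  rwa [one_mul] at h5

end Pool.Agent.Helper17.ZK
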